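import Pool.Agent.Y568.FL.Star
import Pool.Agent.Helper7.Simplex.GeoV

/-!
# Coordinates for projections of the regular simplex
-/

set_option autoImplicit false
set_option linter.unusedSectionVars false
set_option linter.unusedSimpArgs false
set_option linter.unusedVariables false

namespace Pool.Agent.Y568.FL

open Finset Matrix MeasureTheory Pool.Agent.Helper7.Simplex
open scoped ENNReal

variable {V : Type*} [NormedAddCommGroup V] [InnerProductSpace ℝ V] [FiniteDimensional ℝ V]

/-- Coordinates on a subspace, together with the coordinate map. -/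
theorem coord [MeasurableSpace V] [BorelSpace V] {n k : ℕ} (v : Fin (n + 1) → V)
    (hf : ∀ x : V,
      ∑ i, (inner ℝ (v i - ((n : ℝ) + 1)⁻¹ • ∑ j, v j) x) ^ 2 = ‖x‖ ^ 2)
    (E : Submodule ℝ V) (hE : Module.finrank ℝ E = k) :
    ∃ L : V →ₗ[ℝ] (Fin k → ℝ),
      J7762.projVol k E (convexHull ℝ (Set.range v)) = volume (convexHull ℝ
        (Set.range fun i => L (v i - ((n : ℝ) + 1)⁻¹ • ∑ j, v j))) ∧
      ∑ i, L (v i - ((n : ℝ) + 1)⁻¹ • ∑ j, v j) = 0 ∧
      Fr (fun i => L (v i - ((n : ℝ) + 1)⁻¹ • ∑ j, v j)) ∧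
      (∀ y ∈ Eᗮ, L y = 0) ∧
      ∀ y z : V, y ∈ E → L y ⬝ᵥ L z = inner ℝ y z := by
  subst hE
  set c : V := ((n : ℝ) + 1)⁻¹ • ∑ j, v j with hc
  set b := stdOrthonormalBasis ℝ E with hb
  let L : V →ₗ[ℝ] (Fin (Module.finrank ℝ E) → ℝ) :=
    { toFun := fun y => WithLp.ofLp (b.repr (E.orthogonalProjectionOnto y))
      map_add' := fun y z => by rw [map_add, map_add]; rfl
      map_smul' := fun r y => by rw [map_smul, map_smul]; rfl }
  have hL : ∀ y a, L y a = inner ℝ (b a : V) y := by
    intro y a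
    show (b.repr (E.orthogonalProjectionOnto y)) a = _
    rw [b.repr_apply_apply]
    exact Submodule.inner_orthogonalProjectionOnto_eq_of_mem_left (b a) y
  refine ⟨L, ?_, ?_, ?_, ?_, ?_⟩
  · have e1 : J7762.projVol (Module.finrank ℝ E) E (convexHull ℝ (Set.range v)) =
        volume (L '' convexHull ℝ (Set.range v)) := by
      rw [J7762.projVol_eq, J7762.j7762_ofLp, Set.image_image]
      rfl
    have e2 : Set.range (fun i => L (v i - c)) = (fun z => z + -(L c)) '' (L '' Set.range v) := by
      rw [Set.image_image, ← Set.range_comp]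
      congr 1
      funext i
      show L (v i - c) = L (v i) + -(L c)
      rw [map_sub, sub_eq_add_neg]
    have e3 : convexHull ℝ (Set.range (fun i => L (v i - c))) =
        (fun z => z + -(L c)) '' (L '' convexHull ℝ (Set.range v)) := by
      rw [e2, LinearMap.image_convexHull]
      have h1 := AffineMap.image_convexHull
        ((AffineEquiv.constVAdd ℝ (Fin (Module.finrank ℝ E) → ℝ) (-(L c))).toAffineMap)
        (L '' Set.range v)
      have h2 : (⇑((AffineEquiv.constVAdd ℝ (Fin (Module.finrank ℝ E) → ℝ) (-(L c))).toAffineMap)) =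
          (fun z : Fin (Module.finrank ℝ E) → ℝ => z + -(L c)) := by
        funext z
        show -(L c) +ᵥ z = z + -(L c)
        rw [vadd_eq_add, add_comm]
      rw [h2] at h1
      exact h1.symm
    rw [e1, e3, Set.image_add_right, measure_preimage_add_right]
  · rw [← map_sum, Finset.sum_sub_distrib, Finset.sum_const, Finset.card_univ, Fintype.card_fin]
    have : (n + 1) • c = ∑ j, v j := by
      rw [hc, ← Nat.cast_smul_eq_nsmul ℝ, smul_smul]
      push_cast
      rw [mul_inv_cancel₀ (by positivity), one_smul]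
    rw [this, sub_self, map_zero]
  · intro w
    set y : V := ∑ a, w a • (b a : V) with hy
    have h1 : ∀ u : V, L u ⬝ᵥ w = inner ℝ u y := by
      intro u
      rw [hy, inner_sum]
      simp only [dotProduct]
      refine Finset.sum_congr rfl fun a _ => ?_
      rw [hL, inner_smul_right, real_inner_comm, mul_comm]
    have h2 : w ⬝ᵥ w = ‖y‖ ^ 2 := by
      have h3 : L y = w := by
        funext a
        rw [hL, hy, inner_sum]
        have h4 := b.orthonormal
        rw [orthonormal_iff_ite] at h4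
        have h5 : ∀ c', inner ℝ (b a : V) (w c' • (b c' : V)) = if a = c' then w c' else 0 := by
          intro c'
          rw [inner_smul_right]
          have : inner ℝ (b a : V) (b c' : V) = if a = c' then (1:ℝ) else 0 := h4 a c'
          rw [this]
          split_ifs <;> simp
        simp only [h5, Finset.sum_ite_eq, mem_univ, if_true]
      rw [← real_inner_self_eq_norm_sq, ← h1, h3]
    rw [h2, ← hf y]
    exact Finset.sum_congr rfl fun i _ => by rw [h1]
  · intro y hy
    funext a
    rw [hL]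
    exact (Submodule.mem_orthogonal _ _).1 hy _ (b a).2
  · intro y z hyE
    have h1 : y = ∑ a, L y a • (b a : V) := by
      have h2 := b.sum_repr ⟨y, hyE⟩
      have h3 := congrArg (Subtype.val) h2
      simp only [AddSubmonoidClass.coe_finset_sum, Submodule.coe_smul] at h3
      rw [← h3]
      refine Finset.sum_congr rfl fun a _ => ?_
      congr 1
      rw [hL, b.repr_apply_apply, h3]
      rfl
    conv_rhs => rw [h1]
    rw [sum_inner]
    simp only [dotProduct]
    refine Finset.sum_congr rfl fun a _ => ?_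
    rw [inner_smul_left, ← hL]
    rfl

/-- the centred vertices have constant Gram entries -/
lemma gram {n : ℕ} (v : Fin (n + 1) → V) (hv : ∀ i j, i ≠ j → dist (v i) (v j) = √2) :
    ∃ q : ℝ, (∀ i, inner ℝ (v i - ((n : ℝ) + 1)⁻¹ • ∑ j, v j)
        (v i - ((n : ℝ) + 1)⁻¹ • ∑ j, v j) = q) ∧
      ∀ i j, i ≠ j → inner ℝ (v i - ((n : ℝ) + 1)⁻¹ • ∑ j, v j)
        (v j - ((n : ℝ) + 1)⁻¹ • ∑ j, v j) = q - 1 := by
  have hn1 : ((n : ℝ) + 1) ≠ 0 := by positivity
  set c : V := ((n : ℝ) + 1)⁻¹ • ∑ j, v j with hc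
  set u : Fin (n + 1) → V := fun i => v i - c with hu
  have hsum : ∑ i, u i = 0 := by
    simp only [hu, Finset.sum_sub_distrib, Finset.sum_const, Finset.card_univ, Fintype.card_fin]
    rw [hc, ← Nat.cast_smul_eq_nsmul ℝ, smul_smul]
    push_cast
    rw [mul_inv_cancel₀ hn1, one_smul, sub_self]
  have hdist : ∀ i j, i ≠ j → ‖u i - u j‖ ^ 2 = 2 := by
    intro i j hij
    have h1 : u i - u j = v i - v j := by simp [hu]
    rw [h1, ← dist_eq_norm, hv i j hij]
    exact Real.sq_sqrt (by norm_num)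
  have hexp : ∀ i j, ‖u i - u j‖ ^ 2 = ‖u i‖ ^ 2 + ‖u j‖ ^ 2 - 2 * inner ℝ (u i) (u j) := by
    intro i j
    rw [norm_sub_sq_real]; ring
  set Q : ℝ := ∑ j, ‖u j‖ ^ 2 with hQ
  have hrow : ∀ i, ∑ j, ‖u i - u j‖ ^ 2 = 2 * n := by
    intro i
    rw [← Finset.add_sum_erase _ _ (Finset.mem_univ i)]
    rw [sub_self, norm_zero]
    rw [Finset.sum_congr rfl (fun j hj => hdist i j (Finset.ne_of_mem_erase hj).symm)]
    rw [Finset.sum_const, Finset.card_erase_of_mem (Finset.mem_univ i), Finset.card_univ,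
      Fintype.card_fin]
    simp
    ring
  have hrow2 : ∀ i, ∑ j, ‖u i - u j‖ ^ 2 = ((n : ℝ) + 1) * ‖u i‖ ^ 2 + Q := by
    intro i
    simp_rw [hexp]
    rw [Finset.sum_sub_distrib, Finset.sum_add_distrib, ← Finset.mul_sum, ← inner_sum, hsum,
      inner_zero_right]
    rw [Finset.sum_const, Finset.card_univ, Fintype.card_fin, nsmul_eq_mul]
    push_cast
    ring
  have hnorm : ∀ i, ‖u i‖ ^ 2 = ‖u 0‖ ^ 2 := by
    intro i
    have h1 := hrow i
    have h2 := hrow 0
    rw [hrow2] at h1 h2
    have h3 : ((n : ℝ) + 1) * ‖u i‖ ^ 2 = ((n : ℝ) + 1) * ‖u 0‖ ^ 2 := by linarith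
    exact mul_left_cancel₀ hn1 h3
  refine ⟨‖u 0‖ ^ 2, ?_, ?_⟩
  · intro i
    rw [real_inner_self_eq_norm_sq]
    exact hnorm i
  · intro i j hij
    have h1 := hexp i j
    rw [hdist i j hij, hnorm i, hnorm j] at h1
    show inner ℝ (u i) (u j) = _
    linarith

end Pool.Agent.Y568.FL
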