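import Pool.Agent.Y568.FL.Geo

/-!
# Projections of the regular simplex onto the span of a balanced partition with blocks of size ≤ 2
-/

set_option autoImplicit false
set_option linter.unusedSectionVars false
set_option linter.unusedSimpArgs false
set_option linter.unusedVariables false

namespace Pool.Agent.Y568.FL

open Finset Matrix MeasureTheory Pool.Agent.Helper7.Simplex
open scoped ENNReal

variable {V : Type*} [NormedAddCommGroup V] [InnerProductSpace ℝ V] [FiniteDimensional ℝ V]
  [MeasurableSpace V] [BorelSpace V]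

theorem proj_le {n k : ℕ} (hV : Module.finrank ℝ V = n) (v : Fin (n + 1) → V)
    (hv : ∀ i j, i ≠ j → dist (v i) (v j) = √2)
    (E : Submodule ℝ V) (hE : Module.finrank ℝ E = k) :
    J7762.projVol k E (convexHull ℝ (Set.range v)) ≤ ENNReal.ofReal (√2 ^ k / k.factorial) := by
  obtain ⟨L, h1, h2, h3, -, -⟩ := coord v (J7761.R_frame hV v hv) E hE
  rw [h1]
  exact hull_le (Nat.succ_pos n) h3 h2

/-- the block sizes are one or two -/
lemma sizes {n k : ℕ} (hkn : k ≤ n) (hn : n ≤ 2 * k + 1) (p : Fin (n + 1) → Fin (k + 1))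
    (hp : ∀ a, (univ.filter (fun i => p i = a)).card = (n + 1) / (k + 1) ∨
      (univ.filter (fun i => p i = a)).card = (n + 1) / (k + 1) + 1) :
    (∀ a, (univ.filter (fun i => p i = a)).card = 1 ∨
      (univ.filter (fun i => p i = a)).card = 2) ∧
    (univ.filter fun a => (univ.filter (fun i => p i = a)).card = 2).card = n - k := by
  have hsum : ∑ a, (univ.filter (fun i => p i = a)).card = n + 1 := by
    have := Finset.card_eq_sum_card_fiberwise (f := p) (s := univ) (t := univ)
      (fun i _ => Finset.mem_coe.mpr (Finset.mem_univ _))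
    rw [← this, Finset.card_univ, Fintype.card_fin]
  have h12 : ∀ a, (univ.filter (fun i => p i = a)).card = 1 ∨
      (univ.filter (fun i => p i = a)).card = 2 := by
    rcases Nat.lt_or_ge n (2 * k + 1) with h | h
    · have : (n + 1) / (k + 1) = 1 := by
        apply Nat.div_eq_of_lt_le <;> omega
      intro a
      have := hp a
      omega
    · have h3 : n = 2 * k + 1 := le_antisymm hn h
      have h4 : (n + 1) / (k + 1) = 2 := by
        apply Nat.div_eq_of_lt_le <;> omega
      have h5 : ∀ a ∈ (univ : Finset (Fin (k + 1))), 2 ≤ (univ.filter (fun i => p i = a)).card := by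
        intro a _
        have := hp a
        omega
      have h6 : ∑ a : Fin (k + 1), 2 = ∑ a, (univ.filter (fun i => p i = a)).card := by
        rw [hsum, Finset.sum_const, Finset.card_univ, Fintype.card_fin, smul_eq_mul]
        omega
      intro a
      right
      exact ((Finset.sum_eq_sum_iff_of_le h5).mp h6 a (mem_univ a)).symm
  refine ⟨h12, ?_⟩
  have h7 : ∑ a, (univ.filter (fun i => p i = a)).card =
      ∑ a : Fin (k + 1), (1 + if (univ.filter (fun i => p i = a)).card = 2 then 1 else 0) := by
    refine Finset.sum_congr rfl fun a _ => ?_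
    rcases h12 a with h | h <;> rw [h] <;> simp
  rw [hsum, Finset.sum_add_distrib, Finset.sum_const, Finset.card_univ, Fintype.card_fin,
    smul_eq_mul, mul_one, ← Finset.card_filter] at h7
  omega

theorem proj_star {n k : ℕ} (hV : Module.finrank ℝ V = n) (hkn : k ≤ n) (hn : n ≤ 2 * k + 1)
    (v : Fin (n + 1) → V) (hv : ∀ i j, i ≠ j → dist (v i) (v j) = √2)
    (p : Fin (n + 1) → Fin (k + 1))
    (hp : ∀ a, (univ.filter (fun i => p i = a)).card = (n + 1) / (k + 1) ∨
      (univ.filter (fun i => p i = a)).card = (n + 1) / (k + 1) + 1) :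
    Module.finrank ℝ (Submodule.span ℝ {x | ∃ i j, p i = p j ∧ x = v i - v j}) = n - k ∧
    J7762.projVol (n - k) (Submodule.span ℝ {x | ∃ i j, p i = p j ∧ x = v i - v j})
      (convexHull ℝ (Set.range v)) = ENNReal.ofReal (√2 ^ (n - k) / (n - k).factorial) := by
  classical
  obtain ⟨h12, hcard⟩ := sizes hkn hn p hp
  have hsurj : Function.Surjective p := by
    intro a
    have h1 : 0 < (univ.filter (fun i => p i = a)).card := by
      rcases h12 a with h | h <;> omega
    obtain ⟨i, hi⟩ := Finset.card_pos.mp h1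
    exact ⟨i, (Finset.mem_filter.mp hi).2⟩
  have hf := J7761.R_frame hV v hv
  have hF := J7764.R_finrank hV v hv hf p hsurj
  set E : Submodule ℝ V := Submodule.span ℝ {x | ∃ i j, p i = p j ∧ x = v i - v j} with hEdef
  have hE : Module.finrank ℝ E = n - k := by
    have := Submodule.finrank_add_finrank_orthogonal E
    omega
  refine ⟨hE, le_antisymm (proj_le hV v hv E hE) ?_⟩
  obtain ⟨L, h1, h2, h3, h4, h5⟩ := coord v hf E hE
  obtain ⟨q, g1, g2⟩ := gram v hv
  rw [h1]
  set c : V := ((n : ℝ) + 1)⁻¹ • ∑ j, v j with hc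
  -- enumeration of the blocks of size two
  set T := univ.filter fun a => (univ.filter (fun i => p i = a)).card = 2 with hT
  set e : Fin (n - k) → Fin (k + 1) := ⇑(T.orderEmbOfFin hcard) with he
  have heinj : Function.Injective e := (T.orderEmbOfFin hcard).injective
  have heT : ∀ a, (univ.filter (fun i => p i = e a)).card = 2 := by
    intro a
    have : e a ∈ T := T.orderEmbOfFin_mem hcard a
    exact (Finset.mem_filter.mp this).2
  have hex : ∀ a, ∃ i j, i ≠ j ∧ univ.filter (fun l => p l = e a) = {i, j} := fun a =>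
    Finset.card_eq_two.mp (heT a)
  choose i j hne hset using hex
  have hmem : ∀ a l, p l = e a ↔ (l = i a ∨ l = j a) := by
    intro a l
    have := Finset.ext_iff.mp (hset a) l
    simpa using this
  have hpi : ∀ a, p (i a) = e a := fun a => (hmem a _).mpr (Or.inl rfl)
  have hpj : ∀ a, p (j a) = e a := fun a => (hmem a _).mpr (Or.inr rfl)
  -- the antipodal pairs
  have horth : ∀ a, (v (i a) - c) + (v (j a) - c) ∈ Eᗮ := by
    intro a
    rw [Submodule.mem_orthogonal]
    have key : ∀ r, inner ℝ (v r - c) ((v (i a) - c) + (v (j a) - c)) =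
        if p r = e a then 2 * q - 1 else 2 * q - 2 := by
      intro r
      rw [inner_add_right]
      by_cases hr : p r = e a
      · rw [if_pos hr]
        rcases (hmem a r).mp hr with rfl | rfl
        · rw [g1, g2 _ _ (hne a)]; ring
        · rw [g1, g2 _ _ (hne a).symm]; ring
      · rw [if_neg hr]
        have hr1 : r ≠ i a := fun h => hr ((hmem a r).mpr (Or.inl h))
        have hr2 : r ≠ j a := fun h => hr ((hmem a r).mpr (Or.inr h))
        rw [g2 _ _ hr1, g2 _ _ hr2]; ring
    intro w hw
    induction hw using Submodule.span_induction with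
    | mem w hw =>
      obtain ⟨r, s, hrs, rfl⟩ := hw
      have e1 : v r - v s = (v r - c) - (v s - c) := by abel
      rw [e1, inner_sub_left, key, key, hrs, sub_self]
    | zero => exact inner_zero_left _
    | add a b _ _ iha ihb => rw [inner_add_left, iha, ihb, add_zero]
    | smul a b _ ihb => rw [inner_smul_left, ihb, mul_zero]
  have hneg : ∀ a, L (v (j a) - c) = - L (v (i a) - c) := by
    intro a
    have := h4 _ (horth a)
    rw [map_add] at this
    exact (neg_eq_of_add_eq_zero_right this).symm
  have hhalf : ∀ a, L (v (i a) - c) = (1 / 2 : ℝ) • L (v (i a) - v (j a)) := by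
    intro a
    have e1 : v (i a) - v (j a) = (v (i a) - c) - (v (j a) - c) := by abel
    have e2 : L (v (i a) - v (j a)) = L (v (i a) - c) - L (v (j a) - c) := by
      rw [← map_sub, ← e1]
    rw [e2, hneg a, sub_neg_eq_add, ← two_smul ℝ, smul_smul]
    norm_num
  have hmemE : ∀ a, v (i a) - v (j a) ∈ E := fun a =>
    Submodule.subset_span ⟨i a, j a, by rw [hpi, hpj], rfl⟩
  have hdiff : ∀ a b, inner ℝ (v (i a) - v (j a)) (v (i b) - v (j b)) =
      if a = b then (2:ℝ) else 0 := by
    intro a b
    have e1 : ∀ a, v (i a) - v (j a) = (v (i a) - c) - (v (j a) - c) := fun a => by abel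
    rw [e1 a, e1 b, inner_sub_left, inner_sub_right (v (i a) - c) (v (i b) - c),
      inner_sub_right (v (j a) - c) (v (i b) - c)]
    by_cases hab : a = b
    · subst hab
      rw [if_pos rfl, g1, g1, g2 _ _ (hne a), g2 _ _ (hne a).symm]
      ring
    · rw [if_neg hab]
      have hp' : ∀ r s, p r = e a → p s = e b → r ≠ s := by
        intro r s hr hs h
        rw [h, hs] at hr
        exact hab (heinj hr.symm)
      rw [g2 _ _ (hp' _ _ (hpi a) (hpi b)), g2 _ _ (hp' _ _ (hpi a) (hpj b)),
        g2 _ _ (hp' _ _ (hpj a) (hpi b)), g2 _ _ (hp' _ _ (hpj a) (hpj b))]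
      ring
  refine star_ge (Nat.succ_pos n) i j hneg ?_
  intro a b
  show L (v (i a) - c) ⬝ᵥ L (v (i b) - c) = _
  rw [hhalf a, hhalf b, smul_dotProduct, dotProduct_smul, h5 _ _ (hmemE a), hdiff]
  split_ifs <;> norm_num

end Pool.Agent.Y568.FL
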