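import Pool.Agent.Y568.FL.Vol
import Mathlib.MeasureTheory.Measure.Lebesgue.VolumeOfBalls

/-!
# The cross-polytope: lower bound for the volume

If among the points `x` there are `m` antipodal pairs `± u_a` with `u_a ⬝ᵥ u_c = δ/2`, then the convex
hull has volume at least `√2^m / m!`.
-/

set_option autoImplicit false
set_option linter.unusedSectionVars false
set_option linter.unusedSimpArgs false
set_option linter.unusedVariables false

namespace Pool.Agent.Y568.FL

open Finset Matrix MeasureTheory Pool.Agent.Helper484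
open scoped ENNReal

variable {m N : ℕ}

lemma cross_vol (m : ℕ) : volume {t : Fin m → ℝ | ∑ a, |t a| ≤ 1} =
    ENNReal.ofReal (2 ^ m / m.factorial) := by
  rcases Nat.eq_zero_or_pos m with h0 | hm
  · subst h0
    have : {t : Fin 0 → ℝ | ∑ a, |t a| ≤ 1} = Set.univ := by
      ext t; simp
    rw [this, Measure.volume_pi_eq_dirac (fun i => i.elim0)]
    simp
  · have : Nonempty (Fin m) := ⟨⟨0, hm⟩⟩
    have h := MeasureTheory.volume_sum_rpow_le (ι := Fin m) (p := 1) le_rfl 1
    have e : {x : Fin m → ℝ | (∑ i, |x i| ^ (1:ℝ)) ^ (1 / (1:ℝ)) ≤ 1} =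
        {t : Fin m → ℝ | ∑ a, |t a| ≤ 1} := by
      ext x
      simp
    rw [e] at h
    rw [h]
    simp only [ENNReal.ofReal_one, one_pow, one_mul, Fintype.card_fin, div_one]
    congr 2
    · norm_num [Real.Gamma_two]
    · rw [← Real.Gamma_nat_eq_factorial]

lemma det_star {x : Fin N → Fin m → ℝ} {i : Fin m → Fin N}
    (hij : ∀ a c, x (i a) ⬝ᵥ x (i c) = if a = c then 1 / 2 else 0) :
    |(A x i).det| = (√2)⁻¹ ^ m := by
  have h1 : (A x i)ᵀ * A x i = (1 / 2 : ℝ) • (1 : Matrix (Fin m) (Fin m) ℝ) := by
    ext a c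
    rw [Matrix.mul_apply, Matrix.smul_apply, Matrix.one_apply]
    have := hij a c
    simp only [dotProduct] at this
    simp only [A, Matrix.transpose_apply, Matrix.of_apply, this]
    split_ifs <;> simp
  have h2 := congrArg Matrix.det h1
  rw [Matrix.det_mul, Matrix.det_transpose, Matrix.det_smul, Matrix.det_one, mul_one,
    Fintype.card_fin] at h2
  have h3 : |(A x i).det| ^ 2 = ((√2)⁻¹ ^ m) ^ 2 := by
    rw [sq_abs, sq, h2, ← pow_mul, mul_comm m 2, pow_mul, inv_pow, Real.sq_sqrt (by norm_num)]
    norm_num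
  exact (pow_left_inj₀ (abs_nonneg _) (by positivity) two_ne_zero).mp h3

theorem star_ge {x : Fin N → Fin m → ℝ} (hN : 0 < N) (i j : Fin m → Fin N)
    (hneg : ∀ a, x (j a) = - x (i a))
    (hij : ∀ a c, x (i a) ⬝ᵥ x (i c) = if a = c then 1 / 2 else 0) :
    ENNReal.ofReal (√2 ^ m / m.factorial) ≤ volume (convexHull ℝ (Set.range x)) := by
  classical
  have hsub : (Matrix.toLin' (A x i)) '' {t : Fin m → ℝ | ∑ a, |t a| ≤ 1} ⊆
      convexHull ℝ (Set.range x) := by
    rintro _ ⟨t, ht, rfl⟩
    rw [Matrix.toLin'_apply, A_mulVec]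
    have ht' : ∑ a, |t a| ≤ 1 := ht
    rcases Nat.eq_zero_or_pos m with h0 | hm
    · subst h0
      have h1 : (∑ a : Fin 0, t a • x (i a)) = x ⟨0, hN⟩ := Subsingleton.elim _ _
      rw [h1]
      exact subset_convexHull ℝ _ ⟨_, rfl⟩
    · have hm0 : (m : ℝ) ≠ 0 := by positivity
      set s : ℝ := (1 - ∑ a, |t a|) / (2 * m) with hs
      have hs0 : 0 ≤ s := div_nonneg (by linarith) (by positivity)
      have key := (convex_convexHull ℝ (Set.range x)).sum_mem (t := (univ : Finset (Fin m ⊕ Fin m)))
        (w := Sum.elim (fun a => (|t a| + t a) / 2 + s) (fun a => (|t a| - t a) / 2 + s))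
        (z := Sum.elim (fun a => x (i a)) (fun a => x (j a))) ?_ ?_ ?_
      · rw [Fintype.sum_sum_type] at key
        simp only [Sum.elim_inl, Sum.elim_inr] at key
        rw [← Finset.sum_add_distrib] at key
        have e : ∀ a, ((|t a| + t a) / 2 + s) • x (i a) + ((|t a| - t a) / 2 + s) • x (j a) =
            t a • x (i a) := by
          intro a
          rw [hneg a, smul_neg, ← sub_eq_add_neg, ← sub_smul]
          congr 1
          ring
        simp only [e] at key
        exact key
      · rintro (a | a) _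
        · simp only [Sum.elim_inl]
          have := neg_abs_le (t a)
          linarith
        · simp only [Sum.elim_inr]
          have := le_abs_self (t a)
          linarith
      · rw [Fintype.sum_sum_type]
        simp only [Sum.elim_inl, Sum.elim_inr]
        rw [← Finset.sum_add_distrib]
        have e : ∀ a, ((|t a| + t a) / 2 + s) + ((|t a| - t a) / 2 + s) = |t a| + 2 * s := by
          intro a; ring
        simp only [e]
        rw [Finset.sum_add_distrib, Finset.sum_const, Finset.card_univ, Fintype.card_fin,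
          nsmul_eq_mul, hs]
        field_simp
        ring
      · rintro (a | a) _
        · exact subset_convexHull ℝ _ ⟨_, rfl⟩
        · exact subset_convexHull ℝ _ ⟨_, rfl⟩
  refine le_trans ?_ (measure_mono hsub)
  rw [Measure.addHaar_image_linearMap, LinearMap.det_toLin', cross_vol, det_star hij,
    ← ENNReal.ofReal_mul (by positivity)]
  apply ENNReal.ofReal_le_ofReal
  have h2 : (√2)⁻¹ * 2 = √2 := by
    have h3 : √2 * √2 = 2 := Real.mul_self_sqrt (by norm_num)
    have h4 : √2 ≠ 0 := by positivity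
    field_simp
    linarith
  have h5 : (√2)⁻¹ ^ m * (2 ^ m / (m.factorial : ℝ)) = √2 ^ m / m.factorial := by
    rw [← mul_div_assoc, ← mul_pow, h2]
  rw [h5]

end Pool.Agent.Y568.FL
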