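import Pool.Agent.Helper484.Weights

/-!
# Feasible bases: disjoint cones which cover almost everything

`x : Fin N → Fin m → ℝ` are vectors which span `ℝ^m` as a cone, `b` is a generic positive right hand
side. The feasible bases `I` (with `x j ⬝ᵥ Y x b I ≤ b j` for all `j`) give pairwise disjoint open
simplicial cones, and every point outside a finite union of proper subspaces lies in one of them.
-/

set_option autoImplicit false
set_option linter.unusedSectionVars false
set_option linter.unusedSimpArgs false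
set_option linter.unusedVariables false

namespace Pool.Agent.Y568.FL

open Finset Matrix Pool.Agent.Helper484

variable {m N : ℕ}

/-- coordinates with respect to the basis `x (I a)` -/
noncomputable def Lam (x : Fin N → Fin m → ℝ) (I : Fin m → Fin N) (y : Fin m → ℝ) : Fin m → ℝ :=
  (A x I)⁻¹ *ᵥ y

/-- the open cone of a basis -/
def Cn (x : Fin N → Fin m → ℝ) (I : Fin m → Fin N) : Set (Fin m → ℝ) :=
  {y | ∀ a, 0 < Lam x I y a}

/-- feasible bases -/
def Fz (x : Fin N → Fin m → ℝ) (b : Fin N → ℝ) (I : Fin m → Fin N) : Prop :=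
  StrictMono I ∧ D x I ≠ 0 ∧ ∀ j, x j ⬝ᵥ Y x b I ≤ b j

lemma A_mulVec (x : Fin N → Fin m → ℝ) (I : Fin m → Fin N) (l : Fin m → ℝ) :
    A x I *ᵥ l = ∑ a, l a • x (I a) := by
  funext c
  simp only [Matrix.mulVec, dotProduct, A, Matrix.of_apply, Finset.sum_apply, Pi.smul_apply,
    smul_eq_mul]
  exact Finset.sum_congr rfl fun a _ => mul_comm _ _

lemma isUnitA {x : Fin N → Fin m → ℝ} {I : Fin m → Fin N} (h : D x I ≠ 0) :
    IsUnit (A x I).det := isUnit_iff_ne_zero.mpr h

lemma sum_Lam {x : Fin N → Fin m → ℝ} {I : Fin m → Fin N} (h : D x I ≠ 0) (y : Fin m → ℝ) :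
    ∑ a, Lam x I y a • x (I a) = y := by
  rw [← A_mulVec, Lam, Matrix.mulVec_mulVec, Matrix.mul_nonsing_inv _ (isUnitA h),
    Matrix.one_mulVec]

lemma Lam_sum {x : Fin N → Fin m → ℝ} {I : Fin m → Fin N} (h : D x I ≠ 0) (l : Fin m → ℝ) :
    Lam x I (∑ a, l a • x (I a)) = l := by
  rw [← A_mulVec, Lam, Matrix.mulVec_mulVec, Matrix.nonsing_inv_mul _ (isUnitA h),
    Matrix.one_mulVec]

lemma dot_eq {x : Fin N → Fin m → ℝ} {I : Fin m → Fin N} (h : D x I ≠ 0) (b : Fin N → ℝ)
    (y : Fin m → ℝ) : y ⬝ᵥ Y x b I = ∑ a, Lam x I y a * b (I a) := by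
  conv_lhs => rw [← sum_Lam h y]
  rw [sum_dotProduct]
  refine Finset.sum_congr rfl fun a _ => ?_
  rw [smul_dotProduct, dot_Y h, smul_eq_mul]

lemma eq_of_mem {x : Fin N → Fin m → ℝ} {b : Fin N → ℝ}
    (hgen : ∀ I : Fin m → Fin N, D x I ≠ 0 → ∀ j, j ∉ Set.range I → x j ⬝ᵥ Y x b I ≠ b j)
    {I J : Fin m → Fin N} (hI : Fz x b I) (hJ : Fz x b J) {y : Fin m → ℝ}
    (hyI : y ∈ Cn x I) (hyJ : y ∈ Cn x J) : I = J := by
  have key : ∀ {I J : Fin m → Fin N}, Fz x b I → Fz x b J → y ∈ Cn x I → y ∈ Cn x J →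
      y ⬝ᵥ Y x b I ≤ y ⬝ᵥ Y x b J ∧
      (y ⬝ᵥ Y x b J ≤ y ⬝ᵥ Y x b I → Set.range J ⊆ Set.range I) := by
    intro I J hI hJ hyI hyJ
    have e1 : y ⬝ᵥ Y x b I = ∑ c, Lam x J y c * (x (J c) ⬝ᵥ Y x b I) := by
      conv_lhs => rw [← sum_Lam hJ.2.1 y]
      rw [sum_dotProduct]
      refine Finset.sum_congr rfl fun a _ => ?_
      rw [smul_dotProduct, smul_eq_mul]
    have e2 := dot_eq hJ.2.1 b y
    have h1 : ∀ c ∈ (univ : Finset (Fin m)), Lam x J y c * (x (J c) ⬝ᵥ Y x b I) ≤
        Lam x J y c * b (J c) := fun c _ =>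
      mul_le_mul_of_nonneg_left (hI.2.2 (J c)) (hyJ c).le
    refine ⟨?_, ?_⟩
    · rw [e1, e2]; exact Finset.sum_le_sum h1
    · intro h2
      rintro j ⟨c, rfl⟩
      by_contra hcon
      have h3 : Lam x J y c * (x (J c) ⬝ᵥ Y x b I) < Lam x J y c * b (J c) :=
        mul_lt_mul_of_pos_left (lt_of_le_of_ne (hI.2.2 (J c)) (hgen I hI.2.1 _ hcon)) (hyJ c)
      have h4 := Finset.sum_lt_sum h1 ⟨c, mem_univ c, h3⟩
      rw [← e1, ← e2] at h4
      linarith
  have a1 := key hI hJ hyI hyJ
  have a2 := key hJ hI hyJ hyI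
  have h : Set.range I = Set.range J := Set.Subset.antisymm (a2.2 a1.1) (a1.2 a2.1)
  exact (StrictMono.range_inj hI.1 hJ.1).mp h

/-- small perturbations of a nonnegative vector inside its support -/
lemma small_eps (l g : Fin N → ℝ) (hl : ∀ j, 0 ≤ l j) (hg : ∀ j, g j < 0 → 0 < l j) :
    ∃ ε : ℝ, 0 < ε ∧ ∀ j, 0 ≤ l j + ε * g j := by
  have h : ∀ j, ∀ᶠ ε in nhdsWithin (0:ℝ) (Set.Ioi 0), 0 ≤ l j + ε * g j := by
    intro j
    by_cases hj : g j < 0
    · have hc : Continuous (fun ε : ℝ => l j + ε * g j) := by fun_prop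
      have h1 : ∀ᶠ ε in nhds (0:ℝ), 0 < l j + ε * g j :=
        hc.continuousAt.eventually (lt_mem_nhds (by simpa using hg j hj))
      exact (h1.filter_mono nhdsWithin_le_nhds).mono fun ε h => h.le
    · push Not at hj
      filter_upwards [self_mem_nhdsWithin] with ε hε
      have := mul_nonneg (le_of_lt (Set.mem_Ioi.mp hε)) hj
      linarith [hl j]
  obtain ⟨ε, h1, h2⟩ := ((Filter.eventually_all.mpr h).and self_mem_nhdsWithin).exists
  exact ⟨ε, h2, h1⟩

/-- the representations of `y` -/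
def Rep (x : Fin N → Fin m → ℝ) (y : Fin m → ℝ) (l : Fin N → ℝ) : Prop :=
  (∀ j, 0 ≤ l j) ∧ ∑ j, l j • x j = y

lemma exists_min {x : Fin N → Fin m → ℝ} {b : Fin N → ℝ} (hb : ∀ j, 0 < b j) {y : Fin m → ℝ}
    (h : ∃ l, Rep x y l) :
    ∃ l, Rep x y l ∧ ∀ l', Rep x y l' → ∑ j, b j * l j ≤ ∑ j, b j * l' j := by
  obtain ⟨l0, h0⟩ := h
  set K : Set (Fin N → ℝ) := {l | Rep x y l ∧ ∑ j, b j * l j ≤ ∑ j, b j * l0 j} with hK
  have hcl : IsClosed K := by
    have : K = (⋂ j, {l : Fin N → ℝ | 0 ≤ l j}) ∩ {l | ∑ j, l j • x j = y} ∩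
        {l | ∑ j, b j * l j ≤ ∑ j, b j * l0 j} := by
      ext l; simp [hK, Rep]
    rw [this]
    refine ((isClosed_iInter fun j => isClosed_le (by fun_prop) (by fun_prop)).inter
      (isClosed_eq (by fun_prop) (by fun_prop))).inter (isClosed_le (by fun_prop) (by fun_prop))
  have hbd : Bornology.IsBounded K := by
    rw [Metric.isBounded_iff_subset_closedBall 0]
    refine ⟨∑ j, (∑ i, b i * l0 i) / b j, ?_⟩
    intro l hl
    have hS : 0 ≤ ∑ i, b i * l0 i := Finset.sum_nonneg fun i _ => mul_nonneg (hb i).le (h0.1 i)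
    rw [mem_closedBall_zero_iff, pi_norm_le_iff_of_nonneg
      (Finset.sum_nonneg fun j _ => div_nonneg hS (hb j).le)]
    intro j
    rw [Real.norm_eq_abs, abs_of_nonneg (hl.1.1 j)]
    have h1 : b j * l j ≤ ∑ i, b i * l0 i :=
      (Finset.single_le_sum (f := fun i => b i * l i)
        (fun i _ => mul_nonneg (hb i).le (hl.1.1 i)) (mem_univ j)).trans hl.2
    have h2 : l j ≤ (∑ i, b i * l0 i) / b j := by
      rw [le_div_iff₀ (hb j)]; linarith
    exact h2.trans (Finset.single_le_sum (f := fun j => (∑ i, b i * l0 i) / b j)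
      (fun j _ => div_nonneg hS (hb j).le) (mem_univ j))
  have hcomp : IsCompact K := Metric.isCompact_of_isClosed_isBounded hcl hbd
  obtain ⟨l, hl, hmin⟩ := hcomp.exists_isMinOn ⟨l0, h0, le_rfl⟩
    (f := fun l : Fin N → ℝ => ∑ j, b j * l j) (by fun_prop)
  refine ⟨l, hl.1, fun l' hl' => ?_⟩
  by_cases hc : ∑ j, b j * l' j ≤ ∑ j, b j * l0 j
  · exact hmin ⟨hl', hc⟩
  · push Not at hc
    exact hl.2.trans hc.le

/-- an optimal representation with linearly independent support -/
lemma exists_basic {x : Fin N → Fin m → ℝ} {b : Fin N → ℝ} (hb : ∀ j, 0 < b j)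
    {y : Fin m → ℝ} (h : ∃ l, Rep x y l) :
    ∃ l, Rep x y l ∧ (∀ l', Rep x y l' → ∑ j, b j * l j ≤ ∑ j, b j * l' j) ∧
      LinearIndepOn ℝ x {j | l j ≠ 0} := by
  classical
  obtain ⟨l1, h1, hmin1⟩ := exists_min hb h
  let P : ℕ → Prop := fun c => ∃ l, Rep x y l ∧
    (∀ l', Rep x y l' → ∑ j, b j * l j ≤ ∑ j, b j * l' j) ∧
    (univ.filter fun j => l j ≠ 0).card = c
  have hex : ∃ c, P c := ⟨_, l1, h1, hmin1, rfl⟩
  obtain ⟨l, hl, hmin, hcard⟩ := Nat.find_spec hex
  refine ⟨l, hl, hmin, ?_⟩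
  by_contra hdep
  have hset : {j | l j ≠ 0} = (↑(univ.filter fun j => l j ≠ 0) : Set (Fin N)) := by
    ext j; simp
  rw [hset, linearIndepOn_finset_iff] at hdep
  push Not at hdep
  obtain ⟨g0, hg0, j0, hj0, hgj0⟩ := hdep
  -- a relation supported on the support
  obtain ⟨g, hgs, hgsum, j1, hj1⟩ : ∃ g : Fin N → ℝ, (∀ j, l j = 0 → g j = 0) ∧
      ∑ j, g j • x j = 0 ∧ ∃ j, 0 < g j := by
    have key : ∀ s : ℝ, (∀ j, l j = 0 → (if l j ≠ 0 then s * g0 j else 0) = 0) ∧
        ∑ j, (if l j ≠ 0 then s * g0 j else 0) • x j = 0 := by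
      intro s
      refine ⟨fun j hj => by simp [hj], ?_⟩
      have : ∑ j, (if l j ≠ 0 then s * g0 j else 0) • x j =
          s • ∑ j ∈ univ.filter (fun j => l j ≠ 0), g0 j • x j := by
        rw [Finset.sum_filter, Finset.smul_sum]
        refine Finset.sum_congr rfl fun j _ => ?_
        by_cases hj : l j ≠ 0
        · rw [if_pos hj, if_pos hj, smul_smul]
        · rw [if_neg hj, if_neg hj, zero_smul, smul_zero]
      rw [this, hg0, smul_zero]
    have hlj0 : l j0 ≠ 0 := by simpa using hj0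
    rcases lt_or_gt_of_ne hgj0 with hneg | hpos
    · refine ⟨_, (key (-1)).1, (key (-1)).2, j0, ?_⟩
      rw [if_pos hlj0]; linarith
    · refine ⟨_, (key 1).1, (key 1).2, j0, ?_⟩
      rw [if_pos hlj0]; linarith
  have hlpos : ∀ j, g j ≠ 0 → 0 < l j := by
    intro j hj
    refine lt_of_le_of_ne (hl.1 j) fun h => hj (hgs j h.symm)
  have hrep : ∀ s : ℝ, (∀ j, 0 ≤ l j + s * g j) → Rep x y (fun j => l j + s * g j) := by
    intro s hs
    refine ⟨hs, ?_⟩
    have : ∑ j, (l j + s * g j) • x j = ∑ j, l j • x j + s • ∑ j, g j • x j := by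
      rw [Finset.smul_sum, ← Finset.sum_add_distrib]
      exact Finset.sum_congr rfl fun j _ => by rw [add_smul, smul_smul]
    rw [this, hgsum, smul_zero, add_zero, hl.2]
  have hobj : ∀ s : ℝ, ∑ j, b j * (l j + s * g j) = ∑ j, b j * l j + s * ∑ j, b j * g j := by
    intro s
    rw [Finset.mul_sum, ← Finset.sum_add_distrib]
    exact Finset.sum_congr rfl fun j _ => by ring
  have hbeta : ∑ j, b j * g j = 0 := by
    obtain ⟨e1, he1, he1'⟩ := small_eps l g hl.1 (fun j hj => hlpos j hj.ne)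
    obtain ⟨e2, he2, he2'⟩ := small_eps l (fun j => -g j) hl.1 (fun j hj => hlpos j (by
      intro h; rw [h] at hj; simp at hj))
    have a1 := hmin _ (hrep e1 he1')
    rw [hobj] at a1
    have a2 := hmin _ (hrep (-e2) (fun j => by have := he2' j; linarith))
    rw [hobj] at a2
    have b1 : 0 ≤ ∑ j, b j * g j := by
      by_contra hc
      push Not at hc
      have := mul_neg_of_pos_of_neg he1 hc
      linarith
    have b2 : ∑ j, b j * g j ≤ 0 := by
      by_contra hc
      push Not at hc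
      have := mul_pos he2 hc
      linarith
    linarith
  -- move until a coordinate vanishes
  obtain ⟨j2, hj2, hj2min⟩ := Finset.exists_min_image (univ.filter fun j => 0 < g j)
    (fun j => l j / g j) ⟨j1, by simpa using hj1⟩
  have hg2 : 0 < g j2 := by simpa using hj2
  set t := l j2 / g j2 with ht
  have ht0 : 0 < t := div_pos (hlpos j2 hg2.ne') hg2
  have hfeas : ∀ j, 0 ≤ l j + (-t) * g j := by
    intro j
    rcases lt_or_ge 0 (g j) with hj | hj
    · have h2 := hj2min j (by simpa using hj)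
      have h3 : t * g j ≤ l j := by
        rw [← le_div_iff₀ hj]; exact h2
      linarith
    · have := mul_nonneg ht0.le (neg_nonneg.mpr hj)
      linarith [hl.1 j]
  have hrep2 := hrep (-t) hfeas
  have hmin2 : ∀ l', Rep x y l' → ∑ j, b j * (l j + (-t) * g j) ≤ ∑ j, b j * l' j := by
    intro l' hl'
    rw [hobj, hbeta, mul_zero, add_zero]
    exact hmin l' hl'
  have hP2 : P (univ.filter fun j => l j + (-t) * g j ≠ 0).card :=
    ⟨_, hrep2, hmin2, rfl⟩
  have hle := Nat.find_min' hex hP2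
  have hlt : (univ.filter fun j => l j + (-t) * g j ≠ 0).card <
      (univ.filter fun j => l j ≠ 0).card := by
    apply Finset.card_lt_card
    rw [Finset.ssubset_iff_of_subset]
    · refine ⟨j2, ?_, ?_⟩
      · simpa using (hlpos j2 hg2.ne').ne'
      · simp only [mem_filter, mem_univ, true_and, not_not]
        rw [ht]; field_simp; ring
    · intro j hj
      simp only [mem_filter, mem_univ, true_and] at hj ⊢
      intro h
      apply hj
      rw [h, hgs j h]; ring
  omega

/-- the exceptional set -/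
def Zs (x : Fin N → Fin m → ℝ) : Set (Fin m → ℝ) :=
  ⋃ S ∈ {S : Finset (Fin N) | S.card < m}, (Submodule.span ℝ (x '' (S : Set (Fin N))) : Set (Fin m → ℝ))

theorem cover {x : Fin N → Fin m → ℝ} {b : Fin N → ℝ} (hb : ∀ j, 0 < b j)
    {y : Fin m → ℝ} (h : ∃ l, Rep x y l) (hy : y ∉ Zs x) :
    ∃ I, Fz x b I ∧ y ∈ Cn x I := by
  classical
  obtain ⟨l, hl, hmin, hind⟩ := exists_basic hb h
  set S : Finset (Fin N) := univ.filter fun j => l j ≠ 0 with hS
  have hset : {j | l j ≠ 0} = (↑S : Set (Fin N)) := by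
    ext j; simp [hS]
  rw [hset] at hind
  have hyS : y ∈ Submodule.span ℝ (x '' (S : Set (Fin N))) := by
    rw [← hl.2]
    refine Submodule.sum_mem _ fun j _ => ?_
    by_cases hj : l j = 0
    · rw [hj, zero_smul]; exact Submodule.zero_mem _
    · exact Submodule.smul_mem _ _ (Submodule.subset_span ⟨j, by simp [hS, hj], rfl⟩)
  have hc1 : S.card ≤ m := by
    have h1 := hind.encard_le_toENat_rank
    rw [Set.encard_coe_eq_coe_finsetCard] at h1
    have h2 : Module.rank ℝ (Fin m → ℝ) = (m : Cardinal) := by simp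
    rw [h2] at h1
    simpa using h1
  have hc2 : m ≤ S.card := by
    by_contra hcon
    push Not at hcon
    exact hy (Set.mem_biUnion hcon hyS)
  have hc : S.card = m := le_antisymm hc1 hc2
  set I : Fin m → Fin N := ⇑(S.orderEmbOfFin hc) with hI
  have hImono : StrictMono I := (S.orderEmbOfFin hc).strictMono
  have hIrange : Set.range I = (S : Set (Fin N)) := by
    rw [hI]; exact S.range_orderEmbOfFin hc
  have hIinj : Function.Injective I := hImono.injective
  have hli : LinearIndependent ℝ (fun a => x (I a)) := by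
    have h1 : LinearIndepOn ℝ x (Set.range I) := by rw [hIrange]; exact hind
    exact (linearIndepOn_range_iff hIinj x).mp h1
  have hD : D x I ≠ 0 := by
    have h1 : LinearIndependent ℝ ((A x I).col) := by
      have : (A x I).col = fun a => x (I a) := by
        funext a c; rfl
      rw [this]; exact hli
    have h2 := (Matrix.linearIndependent_cols_iff_isUnit (A := A x I)).mp h1
    exact ((Matrix.isUnit_iff_isUnit_det _).mp h2).ne_zero
  have hysum : y = ∑ a, l (I a) • x (I a) := by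
    rw [← hl.2]
    have h1 : ∑ j, l j • x j = ∑ j ∈ S, l j • x j := by
      symm
      apply Finset.sum_subset (subset_univ _)
      intro j _ hj
      have : l j = 0 := by simpa [hS] using hj
      rw [this, zero_smul]
    rw [h1]
    have h2 : S = univ.image I := by
      ext j
      have := Set.ext_iff.mp hIrange j
      simp only [Set.mem_range, Finset.mem_coe] at this
      simp only [Finset.mem_image, mem_univ, true_and]
      exact this.symm
    rw [h2, Finset.sum_image (fun a _ b _ h => hIinj h)]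
  have hLam : Lam x I y = fun a => l (I a) := by
    conv_lhs => rw [hysum]
    exact Lam_sum hD (fun a => l (I a))
  have hpos : ∀ a, 0 < l (I a) := by
    intro a
    have : I a ∈ (S : Set (Fin N)) := hIrange ▸ Set.mem_range_self a
    have h2 : l (I a) ≠ 0 := by simpa [hS] using this
    exact lt_of_le_of_ne (hl.1 _) (Ne.symm h2)
  refine ⟨I, ⟨hImono, hD, ?_⟩, fun a => by rw [hLam]; exact hpos a⟩
  intro j
  by_contra hcon
  push Not at hcon
  -- improve the representation
  set μ := Lam x I (x j) with hμ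
  have hxj : ∑ a, μ a • x (I a) = x j := sum_Lam hD (x j)
  have hdot : x j ⬝ᵥ Y x b I = ∑ a, μ a * b (I a) := dot_eq hD b (x j)
  set g : Fin N → ℝ := fun i => (if i = j then 1 else 0) - ∑ a, (if I a = i then μ a else 0) with hg
  have hgneg : ∀ i, g i < 0 → 0 < l i := by
    intro i hi
    by_contra hli0
    have h0 : l i = 0 := le_antisymm (not_lt.mp hli0) (hl.1 i)
    have h1 : ∀ a, I a ≠ i := by
      intro a ha
      have := hpos a
      rw [ha, h0] at this
      exact lt_irrefl _ this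
    have h2 : ∑ a, (if I a = i then μ a else 0) = 0 :=
      Finset.sum_eq_zero fun a _ => if_neg (h1 a)
    rw [hg] at hi
    simp only [h2, sub_zero] at hi
    split_ifs at hi <;> linarith
  obtain ⟨ε, hε, hε'⟩ := small_eps l g hl.1 hgneg
  have hgx : ∑ i, g i • x i = 0 := by
    simp only [hg, sub_smul, Finset.sum_sub_distrib, ite_smul, one_smul, zero_smul,
      Finset.sum_ite_eq', mem_univ, if_true, Finset.sum_smul]
    rw [Finset.sum_comm]
    simp only [Finset.sum_ite_eq, mem_univ, if_true]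
    rw [hxj, sub_self]
  have hgb : ∑ i, b i * g i = b j - x j ⬝ᵥ Y x b I := by
    rw [hdot]
    simp only [hg, mul_sub, Finset.sum_sub_distrib, mul_ite, mul_one, mul_zero,
      Finset.sum_ite_eq', mem_univ, if_true, Finset.mul_sum]
    rw [Finset.sum_comm]
    simp only [Finset.sum_ite_eq, mem_univ, if_true]
    congr 1
    exact Finset.sum_congr rfl fun a _ => mul_comm _ _
  have hrep : Rep x y (fun i => l i + ε * g i) := by
    refine ⟨hε', ?_⟩
    have : ∑ i, (l i + ε * g i) • x i = ∑ i, l i • x i + ε • ∑ i, g i • x i := by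
      rw [Finset.smul_sum, ← Finset.sum_add_distrib]
      exact Finset.sum_congr rfl fun i _ => by rw [add_smul, smul_smul]
    rw [this, hgx, smul_zero, add_zero, hl.2]
  have h1 := hmin _ hrep
  have h2 : ∑ i, b i * (l i + ε * g i) = ∑ i, b i * l i + ε * ∑ i, b i * g i := by
    rw [Finset.mul_sum, ← Finset.sum_add_distrib]
    exact Finset.sum_congr rfl fun i _ => by ring
  rw [h2, hgb] at h1
  have h3 : ε * (b j - x j ⬝ᵥ Y x b I) < 0 := mul_neg_of_pos_of_neg hε (by linarith)
  linarith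

end Pool.Agent.Y568.FL
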