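import Pool.Agent.Y568.FL.Tri
import Pool.Agent.Helper734.IB.PL
import Pool.Agent.TH984.GB.Simplex

/-!
# The volume of the convex hull of a tight frame

If `∑ x_j ⊗ x_j = 1` on `ℝ^m` and `∑ x_j = 0` then `m! vol (conv x_j) ≤ 2^(m/2)`.

Proof. Triangulate by feasible bases and let `Λ(y) ∈ ℝ^N` be the coordinates of `y` in its cone.
`Λ(y), Λ(z)` have nonnegative entries, so `|y - z|² ≤ |Λ(y) - Λ(z)|² ≤ |Λ(y)|² + |Λ(z)|²`, and the
Prekopa-Leindler inequality for `f(y) = exp (-|Λ(y)|²/2)`, `g(z) = f(-z)` and `h(w) = exp (-|w|²)`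
gives `∑ |det x_I| (π/2)^(m/2) = ∫ f ≤ ∫ h = π^(m/2)`.
-/

set_option autoImplicit false
set_option linter.unusedSectionVars false
set_option linter.unusedSimpArgs false
set_option linter.unusedVariables false

namespace Pool.Agent.Y568.FL

open Finset Matrix MeasureTheory Pool.Agent.Helper484
open scoped ENNReal

variable {m N : ℕ}

/-- the vectors form a Parseval frame -/
def Fr (x : Fin N → Fin m → ℝ) : Prop := ∀ v : Fin m → ℝ, ∑ j, (x j ⬝ᵥ v) ^ 2 = v ⬝ᵥ v

lemma frame_norm {x : Fin N → Fin m → ℝ} (hx : Fr x) (δ : Fin N → ℝ) :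
    (∑ j, δ j • x j) ⬝ᵥ (∑ j, δ j • x j) ≤ ∑ j, δ j ^ 2 := by
  set v := ∑ j, δ j • x j with hv
  have h1 : v ⬝ᵥ v = ∑ j, δ j * (x j ⬝ᵥ v) := by
    conv_lhs => rw [hv]
    rw [sum_dotProduct]
    exact Finset.sum_congr rfl fun j _ => by rw [smul_dotProduct, smul_eq_mul]
  have h2 : 0 ≤ ∑ j, (δ j - x j ⬝ᵥ v) ^ 2 := Finset.sum_nonneg fun j _ => sq_nonneg _
  have h3 : ∑ j, (δ j - x j ⬝ᵥ v) ^ 2 =
      ∑ j, δ j ^ 2 - 2 * ∑ j, δ j * (x j ⬝ᵥ v) + ∑ j, (x j ⬝ᵥ v) ^ 2 := by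
    rw [Finset.mul_sum, ← Finset.sum_sub_distrib, ← Finset.sum_add_distrib]
    exact Finset.sum_congr rfl fun j _ => by ring
  rw [h3, hx v, ← h1] at h2
  linarith

/-- spreading coordinates -/
noncomputable def sp (I : Fin m → Fin N) (l : Fin m → ℝ) (j : Fin N) : ℝ :=
  ∑ a, if I a = j then l a else 0

lemma sp_sum (x : Fin N → Fin m → ℝ) (I : Fin m → Fin N) (l : Fin m → ℝ) :
    ∑ j, sp I l j • x j = ∑ a, l a • x (I a) := by
  simp only [sp, Finset.sum_smul, ite_smul, zero_smul]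
  rw [Finset.sum_comm]
  simp only [Finset.sum_ite_eq, mem_univ, if_true]

lemma sp_nonneg (I : Fin m → Fin N) {l : Fin m → ℝ} (hl : ∀ a, 0 ≤ l a) (j : Fin N) :
    0 ≤ sp I l j :=
  Finset.sum_nonneg fun a _ => by split_ifs <;> [exact hl a; exact le_rfl]

lemma sp_sq {I : Fin m → Fin N} (hI : Function.Injective I) (l : Fin m → ℝ) :
    ∑ j, sp I l j ^ 2 = l ⬝ᵥ l := by
  classical
  have h1 : ∀ a, sp I l (I a) = l a := by
    intro a
    unfold sp
    rw [Finset.sum_eq_single a]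
    · simp
    · intro c _ hc
      exact if_neg fun h => hc (hI h)
    · intro h; exact absurd (mem_univ a) h
  have h2 : ∑ j, sp I l j ^ 2 = ∑ j ∈ univ.image I, sp I l j ^ 2 := by
    symm
    apply Finset.sum_subset (subset_univ _)
    intro j _ hj
    have : sp I l j = 0 := by
      apply Finset.sum_eq_zero
      intro a _
      apply if_neg
      intro h
      exact hj (Finset.mem_image.mpr ⟨a, mem_univ a, h⟩)
    rw [this]; ring
  rw [h2, Finset.sum_image (fun a _ c _ h => hI h)]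
  simp only [h1, dotProduct]
  exact Finset.sum_congr rfl fun a _ => by ring

lemma key_ineq {x : Fin N → Fin m → ℝ} (hx : Fr x) {I J : Fin m → Fin N}
    (hI : Function.Injective I) (hJ : Function.Injective J) (hDI : D x I ≠ 0) (hDJ : D x J ≠ 0)
    {y z : Fin m → ℝ} (hy : y ∈ Cn x I) (hz : z ∈ Cn x J) :
    (y - z) ⬝ᵥ (y - z) ≤ Lam x I y ⬝ᵥ Lam x I y + Lam x J z ⬝ᵥ Lam x J z := by
  set p := sp I (Lam x I y) with hp
  set q := sp J (Lam x J z) with hq
  have hp0 : ∀ j, 0 ≤ p j := sp_nonneg I fun a => (hy a).le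
  have hq0 : ∀ j, 0 ≤ q j := sp_nonneg J fun a => (hz a).le
  have e : y - z = ∑ j, (p j - q j) • x j := by
    simp only [sub_smul, Finset.sum_sub_distrib]
    rw [hp, hq, sp_sum, sp_sum, sum_Lam hDI, sum_Lam hDJ]
  have hI2 : ∑ j, p j ^ 2 = Lam x I y ⬝ᵥ Lam x I y := sp_sq hI (Lam x I y)
  have hJ2 : ∑ j, q j ^ 2 = Lam x J z ⬝ᵥ Lam x J z := sp_sq hJ (Lam x J z)
  rw [e, ← hI2, ← hJ2, ← Finset.sum_add_distrib]
  refine (frame_norm hx _).trans (Finset.sum_le_sum fun j _ => ?_)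
  have := mul_nonneg (hp0 j) (hq0 j)
  nlinarith

open Classical in
/-- the finite set of feasible bases -/
noncomputable def FF (x : Fin N → Fin m → ℝ) (b : Fin N → ℝ) : Finset (Fin m → Fin N) :=
  univ.filter fun I => Fz x b I

/-- generic right hand side -/
def Gen (x : Fin N → Fin m → ℝ) (b : Fin N → ℝ) : Prop :=
  ∀ I : Fin m → Fin N, D x I ≠ 0 → ∀ j, j ∉ Set.range I → x j ⬝ᵥ Y x b I ≠ b j

/-- half Gaussian -/
noncomputable def hg (t : ℝ) : ℝ≥0∞ := if 0 < t then ENNReal.ofReal (Real.exp (-t ^ 2 / 2)) else 0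

lemma hg_meas : Measurable hg :=
  Measurable.ite (measurableSet_lt measurable_const measurable_id) (by fun_prop) measurable_const

lemma prod_ofReal_exp (l : Fin m → ℝ) :
    ∏ a, ENNReal.ofReal (Real.exp (-l a ^ 2 / 2)) = ENNReal.ofReal (Real.exp (-(l ⬝ᵥ l) / 2)) := by
  rw [← ENNReal.ofReal_prod_of_nonneg (fun a _ => (Real.exp_pos _).le), ← Real.exp_sum]
  congr 2
  simp only [dotProduct, ← Finset.sum_neg_distrib, Finset.sum_div]
  exact Finset.sum_congr rfl fun a _ => by ring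

lemma prod_hg_pos {l : Fin m → ℝ} (hl : ∀ a, 0 < l a) :
    ∏ a, hg (l a) = ENNReal.ofReal (Real.exp (-(l ⬝ᵥ l) / 2)) := by
  rw [← prod_ofReal_exp]
  exact Finset.prod_congr rfl fun a _ => if_pos (hl a)

lemma prod_hg_zero {l : Fin m → ℝ} (hl : ¬ ∀ a, 0 < l a) : ∏ a, hg (l a) = 0 := by
  push Not at hl
  obtain ⟨a, ha⟩ := hl
  exact Finset.prod_eq_zero (mem_univ a) (if_neg (not_lt.mpr ha))

/-- the function `exp (-|Λ|²/2)` -/
noncomputable def ff (x : Fin N → Fin m → ℝ) (b : Fin N → ℝ) (y : Fin m → ℝ) : ℝ≥0∞ :=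
  ∑ I ∈ FF x b, ∏ a, hg (Lam x I y a)

lemma Lam_meas (x : Fin N → Fin m → ℝ) (I : Fin m → Fin N) : Measurable (Lam x I) := by
  have : Continuous (Lam x I) := by
    unfold Lam
    exact Continuous.matrix_mulVec continuous_const continuous_id
  exact this.measurable

lemma term_meas (x : Fin N → Fin m → ℝ) (I : Fin m → Fin N) :
    Measurable fun y => ∏ a, hg (Lam x I y a) := by
  refine Finset.measurable_prod _ fun a _ => hg_meas.comp ?_
  exact (measurable_pi_apply a).comp (Lam_meas x I)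

lemma ff_meas (x : Fin N → Fin m → ℝ) (b : Fin N → ℝ) : Measurable (ff x b) :=
  Finset.measurable_sum _ fun I _ => term_meas x I

lemma ff_eq {x : Fin N → Fin m → ℝ} {b : Fin N → ℝ} (hgen : Gen x b) {I : Fin m → Fin N}
    (hI : Fz x b I) {y : Fin m → ℝ} (hy : y ∈ Cn x I) :
    ff x b y = ENNReal.ofReal (Real.exp (-(Lam x I y ⬝ᵥ Lam x I y) / 2)) := by
  classical
  unfold ff
  rw [Finset.sum_eq_single I]
  · exact prod_hg_pos hy
  · intro J hJ hne
    apply prod_hg_zero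
    intro hyJ
    exact hne (eq_of_mem hgen (Finset.mem_filter.mp hJ).2 hI hyJ hy)
  · intro h
    exact absurd (Finset.mem_filter.mpr ⟨mem_univ _, hI⟩) h

lemma ff_ne {x : Fin N → Fin m → ℝ} {b : Fin N → ℝ} {y : Fin m → ℝ} (h : ff x b y ≠ 0) :
    ∃ I, Fz x b I ∧ y ∈ Cn x I := by
  classical
  by_contra hcon
  push Not at hcon
  apply h
  apply Finset.sum_eq_zero
  intro I hI
  exact prod_hg_zero (hcon I (Finset.mem_filter.mp hI).2)

/-- the comparison function -/
noncomputable def hh (w : Fin m → ℝ) : ℝ≥0∞ := ∏ a, ENNReal.ofReal (Real.exp (-w a ^ 2))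

lemma hh_eq (w : Fin m → ℝ) : hh w = ENNReal.ofReal (Real.exp (-(w ⬝ᵥ w))) := by
  unfold hh
  rw [← ENNReal.ofReal_prod_of_nonneg (fun a _ => (Real.exp_pos _).le), ← Real.exp_sum]
  congr 2
  simp only [dotProduct, ← Finset.sum_neg_distrib]
  exact Finset.sum_congr rfl fun a _ => by ring

lemma hh_meas : Measurable (hh : (Fin m → ℝ) → ℝ≥0∞) :=
  Finset.measurable_prod _ fun a _ => by fun_prop

lemma lint_prod (g : ℝ → ℝ≥0∞) (hg : Measurable g) :
    ∀ n : ℕ, (∫⁻ s : Fin n → ℝ, ∏ i, g (s i)) = (∫⁻ t, g t) ^ n := by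
  intro n
  induction n with
  | zero =>
    rw [Measure.volume_pi_eq_dirac (fun i => i.elim0), lintegral_dirac]
    simp
  | succ n ih =>
    have hm : Measurable fun s : Fin (n + 1) → ℝ => ∏ i, g (s i) :=
      Finset.measurable_prod _ fun i _ => hg.comp (measurable_pi_apply i)
    rw [Pool.Agent.Helper734.IB.lintegral_succ n _ hm]
    have e : ∀ a : ℝ, (∫⁻ v : Fin n → ℝ, ∏ i, g ((Fin.cons a v : Fin (n + 1) → ℝ) i)) =
        g a * (∫⁻ t, g t) ^ n := by
      intro a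
      simp only [Fin.prod_univ_succ, Fin.cons_zero, Fin.cons_succ]
      rw [lintegral_const_mul, ih]
      exact Finset.measurable_prod _ fun i _ => hg.comp (measurable_pi_apply i)
    simp only [e]
    rw [lintegral_mul_const _ hg, pow_succ, mul_comm]

lemma int_hg : ∫⁻ t, hg t = ENNReal.ofReal (√(2 * Real.pi) / 2) := by
  have h1 : (fun t => hg t) = (Set.Ioi (0:ℝ)).indicator
      (fun t => ENNReal.ofReal (Real.exp (-(1/2) * t ^ 2))) := by
    funext t
    unfold hg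
    by_cases ht : 0 < t
    · rw [if_pos ht, Set.indicator_of_mem (Set.mem_Ioi.mpr ht)]
      congr 2; ring
    · rw [if_neg ht, Set.indicator_of_notMem (by simpa using ht)]
  rw [h1, lintegral_indicator measurableSet_Ioi, ← ofReal_integral_eq_lintegral_ofReal,
    integral_gaussian_Ioi]
  · congr 2
    congr 1
    ring
  · exact (integrable_exp_neg_mul_sq (by norm_num : (0:ℝ) < 1/2)).integrableOn
  · exact Filter.Eventually.of_forall fun t => (Real.exp_pos _).le

lemma int_hh : ∫⁻ w : Fin m → ℝ, hh w = ENNReal.ofReal (√Real.pi) ^ m := by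
  unfold hh
  rw [lint_prod (fun t => ENNReal.ofReal (Real.exp (-t ^ 2))) (by fun_prop) m]
  congr 1
  have h1 : ∀ t : ℝ, Real.exp (-t ^ 2) = Real.exp (-1 * t ^ 2) := fun t => by congr 1; ring
  simp only [h1]
  rw [← ofReal_integral_eq_lintegral_ofReal, integral_gaussian]
  · simp
  · exact integrable_exp_neg_mul_sq (by norm_num : (0:ℝ) < 1)
  · exact Filter.Eventually.of_forall fun t => (Real.exp_pos _).le

lemma int_term {x : Fin N → Fin m → ℝ} {I : Fin m → Fin N} (h : D x I ≠ 0) :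
    ∫⁻ y, ∏ a, hg (Lam x I y a) =
      ENNReal.ofReal |D x I| * ENNReal.ofReal (√(2 * Real.pi) / 2) ^ m := by
  have hdet : ((A x I)⁻¹).det ≠ 0 := by
    rw [Matrix.det_nonsing_inv, Ring.inverse_eq_inv]
    exact inv_ne_zero h
  have h1 := Real.map_matrix_volume_pi_eq_smul_volume_pi hdet
  have hG : Measurable fun l : Fin m → ℝ => ∏ a, hg (l a) :=
    Finset.measurable_prod _ fun i _ => hg_meas.comp (measurable_pi_apply i)
  have h2 : ∫⁻ y, ∏ a, hg (Lam x I y a) =
      ∫⁻ l, ∏ a, hg (l a) ∂(Measure.map (Matrix.toLin' (A x I)⁻¹) volume) := by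
    rw [lintegral_map hG]
    · rfl
    · exact (LinearMap.continuous_of_finiteDimensional _).measurable
  rw [h2, h1, lintegral_smul_measure, lint_prod _ hg_meas, int_hg, smul_eq_mul]
  congr 2
  rw [Matrix.det_nonsing_inv, Ring.inverse_eq_inv, inv_inv]
  rfl

lemma pl_cond {x : Fin N → Fin m → ℝ} {b : Fin N → ℝ} (hx : Fr x) (hgen : Gen x b)
    (s t : Fin m → ℝ) :
    ff x b s * ff x b (-t) ≤ hh (fun i => (s i + t i) / 2) ^ 2 := by
  by_cases hs : ff x b s = 0
  · rw [hs, zero_mul]; exact zero_le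
  by_cases ht : ff x b (-t) = 0
  · rw [ht, mul_zero]; exact zero_le
  obtain ⟨I, hI, hsI⟩ := ff_ne hs
  obtain ⟨J, hJ, htJ⟩ := ff_ne ht
  rw [ff_eq hgen hI hsI, ff_eq hgen hJ htJ, hh_eq, ← ENNReal.ofReal_mul (Real.exp_pos _).le,
    ← Real.exp_add, ← ENNReal.ofReal_pow (Real.exp_pos _).le, ← Real.exp_nat_mul]
  apply ENNReal.ofReal_le_ofReal
  apply Real.exp_le_exp.mpr
  have h1 := key_ineq hx hI.1.injective hJ.1.injective hI.2.1 hJ.2.1 hsI htJ
  have h2 : (fun i => (s i + t i) / 2) ⬝ᵥ (fun i => (s i + t i) / 2) =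
      (s - -t) ⬝ᵥ (s - -t) / 4 := by
    simp only [dotProduct, Finset.sum_div]
    refine Finset.sum_congr rfl fun i _ => ?_
    simp only [Pi.sub_apply, Pi.neg_apply]
    ring
  rw [h2]
  push_cast
  linarith

/-- the sum of the absolute values of the determinants of the feasible bases -/
noncomputable def SD (x : Fin N → Fin m → ℝ) (b : Fin N → ℝ) : ℝ := ∑ I ∈ FF x b, |D x I|

theorem SD_le {x : Fin N → Fin m → ℝ} {b : Fin N → ℝ} (hx : Fr x) (hgen : Gen x b) :
    SD x b ≤ √2 ^ m := by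
  classical
  have hpl := Pool.Agent.Helper734.IB.pln m (ff x b) (fun t => ff x b (-t)) hh (ff_meas x b)
    ((ff_meas x b).comp measurable_neg) hh_meas (pl_cond hx hgen)
  have hneg : ∫⁻ t : Fin m → ℝ, ff x b (-t) = ∫⁻ t, ff x b t :=
    lintegral_neg_eq_self (μ := volume) (ff x b)
  have hf : ∫⁻ t, ff x b t = ENNReal.ofReal (SD x b * (√(2 * Real.pi) / 2) ^ m) := by
    unfold ff
    rw [lintegral_finsetSum _ (fun I _ => term_meas x I)]
    have : ∀ I ∈ FF x b, ∫⁻ y, ∏ a, hg (Lam x I y a) =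
        ENNReal.ofReal (|D x I| * (√(2 * Real.pi) / 2) ^ m) := by
      intro I hI
      rw [int_term (Finset.mem_filter.mp hI).2.2.1, ENNReal.ofReal_mul (abs_nonneg _),
        ENNReal.ofReal_pow (by positivity)]
    rw [Finset.sum_congr rfl this, ← ENNReal.ofReal_sum_of_nonneg
      (fun I _ => by positivity), SD, Finset.sum_mul]
  rw [hneg, hf, int_hh, ← ENNReal.ofReal_pow (Real.sqrt_nonneg _), ← sq] at hpl
  have hSD : 0 ≤ SD x b := Finset.sum_nonneg fun I _ => abs_nonneg _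
  rw [← ENNReal.ofReal_pow (by positivity), ← ENNReal.ofReal_pow (by positivity),
    ENNReal.ofReal_le_ofReal_iff (by positivity)] at hpl
  have h3 : SD x b * (√(2 * Real.pi) / 2) ^ m ≤ √Real.pi ^ m := by
    exact (pow_le_pow_iff_left₀ (by positivity) (by positivity) two_ne_zero).mp hpl
  have h4 : √Real.pi ^ m = √2 ^ m * (√(2 * Real.pi) / 2) ^ m := by
    rw [← mul_pow]
    congr 1
    rw [Real.sqrt_mul (by norm_num)]
    have : √2 * √2 = 2 := Real.mul_self_sqrt (by norm_num)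
    linear_combination -(√Real.pi / 2) * this
  rw [h4] at h3
  exact le_of_mul_le_mul_right h3 (by positivity)

lemma Zs_null (x : Fin N → Fin m → ℝ) : volume (Zs x) = 0 := by
  classical
  unfold Zs
  rw [measure_biUnion_null_iff (Set.to_countable _)]
  intro S hS
  have hcard : S.card < m := hS
  apply Measure.addHaar_submodule
  intro htop
  have h1 : Module.finrank ℝ (Submodule.span ℝ (x '' (S : Set (Fin N)))) ≤ S.card := by
    have h2 := finrank_span_finset_le_card (R := ℝ) (S.image x)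
    rw [Finset.coe_image] at h2
    exact h2.trans Finset.card_image_le
  rw [htop, finrank_top, Module.finrank_fin_fun] at h1
  omega

lemma dot_le_of_hull {x : Fin N → Fin m → ℝ} {z : Fin m → ℝ} (hz : ∀ j, x j ⬝ᵥ z ≤ 1)
    {y : Fin m → ℝ} (hy : y ∈ convexHull ℝ (Set.range x)) : y ⬝ᵥ z ≤ 1 := by
  have hconv : Convex ℝ {y : Fin m → ℝ | y ⬝ᵥ z ≤ 1} := by
    intro u hu v hv s t hs ht hst
    simp only [Set.mem_ofPred_eq] at hu hv ⊢
    rw [add_dotProduct, smul_dotProduct, smul_dotProduct, smul_eq_mul, smul_eq_mul]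
    nlinarith
  exact convexHull_min (by rintro _ ⟨j, rfl⟩; exact hz j) hconv hy

theorem vol_le {x : Fin N → Fin m → ℝ} {b : Fin N → ℝ} (hb : ∀ j, 0 < b j)
    (hone : ∀ I : Fin m → Fin N, D x I ≠ 0 → (∀ j, x j ⬝ᵥ Y x b I ≤ b j) →
        ∀ j, x j ⬝ᵥ Y x (fun _ => 1) I ≤ 1)
    (hrep : ∀ y : Fin m → ℝ, ∃ l, Rep x y l) :
    volume (convexHull ℝ (Set.range x)) ≤ ENNReal.ofReal (SD x b / m.factorial) := by
  classical
  have hsub : convexHull ℝ (Set.range x) ⊆ Zs x ∪ ⋃ I ∈ FF x b,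
      (Matrix.toLin' (A x I)) '' (Pool.Agent.TH984.GBS.Sx m 1) := by
    intro y hy
    by_cases hz : y ∈ Zs x
    · exact Or.inl hz
    right
    obtain ⟨I, hI, hyI⟩ := cover hb (hrep y) hz
    refine Set.mem_biUnion (Finset.mem_coe.mpr (Finset.mem_filter.mpr ⟨mem_univ _, hI⟩)) ?_
    refine ⟨Lam x I y, ⟨hyI, ?_⟩, ?_⟩
    · have h1 := dot_le_of_hull (hone I hI.2.1 hI.2.2) hy
      rw [dot_eq hI.2.1] at h1
      simpa using h1
    · rw [Matrix.toLin'_apply, A_mulVec, sum_Lam hI.2.1]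
  refine (measure_mono hsub).trans ((measure_union_le _ _).trans ?_)
  rw [Zs_null, zero_add]
  refine (measure_biUnion_finset_le _ _).trans ?_
  have h1 : ∀ I ∈ FF x b, volume ((Matrix.toLin' (A x I)) '' (Pool.Agent.TH984.GBS.Sx m 1)) =
      ENNReal.ofReal (|D x I| / m.factorial) := by
    intro I _
    rw [Measure.addHaar_image_linearMap, LinearMap.det_toLin',
      Pool.Agent.TH984.GBS.vol_Sx m 1 zero_le_one, ← ENNReal.ofReal_mul (abs_nonneg _)]
    congr 1
    rw [one_pow]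
    show |D x I| * (1 / (m.factorial : ℝ)) = _
    ring
  rw [Finset.sum_congr rfl h1, ← ENNReal.ofReal_sum_of_nonneg (fun I _ => by positivity),
    ← Finset.sum_div]
  exact le_rfl

/-- **Volume of the convex hull of a tight frame.** -/
theorem hull_le {x : Fin N → Fin m → ℝ} (hN : 0 < N) (hx : Fr x) (hsum : ∑ j, x j = 0) :
    volume (convexHull ℝ (Set.range x)) ≤ ENNReal.ofReal (√2 ^ m / m.factorial) := by
  classical
  obtain ⟨b, hb, hgen, hone⟩ := exists_generic_rhs x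
  have hne : Nonempty (Fin N) := ⟨⟨0, hN⟩⟩
  have hpol : ∀ y : Fin m → ℝ, ∑ j, (x j ⬝ᵥ y) • x j = y := by
    intro y
    have hpolar : ∀ u v : Fin m → ℝ, ∑ j, (x j ⬝ᵥ u) * (x j ⬝ᵥ v) = u ⬝ᵥ v := by
      intro u v
      have h1 := hx (u + v)
      have h2 := hx u
      have h3 := hx v
      have h4 : ∑ j, (x j ⬝ᵥ (u + v)) ^ 2 = ∑ j, (x j ⬝ᵥ u) ^ 2 +
          2 * ∑ j, (x j ⬝ᵥ u) * (x j ⬝ᵥ v) + ∑ j, (x j ⬝ᵥ v) ^ 2 := by
        rw [Finset.mul_sum, ← Finset.sum_add_distrib, ← Finset.sum_add_distrib]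
        exact Finset.sum_congr rfl fun j _ => by rw [dotProduct_add]; ring
      have h5 : (u + v) ⬝ᵥ (u + v) = u ⬝ᵥ u + 2 * (u ⬝ᵥ v) + v ⬝ᵥ v := by
        rw [dotProduct_add, add_dotProduct, add_dotProduct, dotProduct_comm v u]; ring
      rw [h4, h5, h2, h3] at h1
      linarith
    have hz : ∀ v : Fin m → ℝ, (∑ j, (x j ⬝ᵥ y) • x j) ⬝ᵥ v = y ⬝ᵥ v := by
      intro v
      rw [sum_dotProduct, ← hpolar y v]
      exact Finset.sum_congr rfl fun j _ => by rw [smul_dotProduct, smul_eq_mul]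
    funext i
    have := hz (Pi.single i 1)
    simpa using this
  have hrep : ∀ y : Fin m → ℝ, ∃ l, Rep x y l := by
    intro y
    set t : ℝ := ∑ j, |x j ⬝ᵥ y| with ht
    refine ⟨fun j => x j ⬝ᵥ y + t, fun j => ?_, ?_⟩
    · have h1 : |x j ⬝ᵥ y| ≤ t :=
        Finset.single_le_sum (f := fun j => |x j ⬝ᵥ y|) (fun j _ => abs_nonneg _) (mem_univ j)
      have h2 := neg_abs_le (x j ⬝ᵥ y)
      linarith
    · simp only [add_smul, Finset.sum_add_distrib]
      rw [hpol y, ← Finset.smul_sum, hsum, smul_zero, add_zero]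
  have hbpos : ∀ j, 0 < b j := fun j => by linarith [(hb j).1]
  refine (vol_le hbpos hone hrep).trans (ENNReal.ofReal_le_ofReal ?_)
  exact div_le_div_of_nonneg_right (SD_le hx hgen) (by positivity)

end Pool.Agent.Y568.FL
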